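import Pool.Agent.Lib.MP_524519_ag.DU5.TE.Iface
import Pool.Agent.Lib.MP_524519_ag.DU5.TR.H18.Nak

/-! # DU5, chapter TE, module EVL: homomorphisms to `F⟦s⟧` are substitutions -/

set_option autoImplicit false

namespace Pool.Agent.DU5.TE.H03

open MvPowerSeries

theorem evl_dvd {F : Type} [Field F] {n : ℕ} (φ : O F n →+* PowerSeries F)
    (h0 : ∀ i, PowerSeries.constantCoeff (φ (X i)) = 0) (N : ℕ) :
    ∀ h : O F n, h ∈ TR.MO F n N → PowerSeries.X ^ N ∣ φ h := by
  induction N with
  | zero => intro h _; rw [pow_zero]; exact one_dvd _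
  | succ N ih =>
    intro h hh
    rw [← TR.H18.sum_prt hh, map_sum]
    refine Finset.dvd_sum fun i _ => ?_
    rw [map_mul, pow_succ']
    exact mul_dvd_mul (PowerSeries.X_dvd_iff.2 (h0 i)) (ih _ (TR.H18.prt_mem hh i))

theorem evl : EvlStatement := by
  intro F _ n ψ hψ
  have h0 : ∀ i, PowerSeries.constantCoeff (ψ (X i)) = 0 := by
    intro i
    by_contra hc
    have hu : IsUnit ((X i : O F n) -
        MvPowerSeries.C (PowerSeries.constantCoeff (ψ (X i)))) := by
      rw [MvPowerSeries.isUnit_iff_constantCoeff]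
      simpa using hc
    have h1 := hu.map ψ
    rw [map_sub, hψ, PowerSeries.isUnit_iff_constantCoeff] at h1
    simp at h1
  refine ⟨h0, ?_⟩
  set x : Fin n → PowerSeries F := fun i => ψ (X i) with hx
  have hS : HasSubst x := hs h0
  set φ : O F n →+* PowerSeries F := (substAlgHom (R := F) hS).toRingHom with hφ
  have hφe : ∀ g : O F n, ev x g = φ g := by
    intro g
    show MvPowerSeries.subst x g = substAlgHom (R := F) hS g
    rw [coe_substAlgHom hS]
  have hφX : ∀ i, φ (X i) = ψ (X i) := by
    intro i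
    rw [← hφe]
    exact subst_X hS i
  have hφC : ∀ c : F, φ (MvPowerSeries.C c) = PowerSeries.C c := by
    intro c
    have h1 : (MvPowerSeries.C c : O F n) = algebraMap F (O F n) c := rfl
    rw [h1]
    show substAlgHom (R := F) hS (algebraMap F (O F n) c) = _
    rw [AlgHom.commutes]
    rfl
  have hpoly : ∀ p : MvPolynomial (Fin n) F, ψ (p : O F n) = φ (p : O F n) := by
    intro p
    have h1 : ψ.comp (MvPolynomial.coeToMvPowerSeries.ringHom (R := F) (σ := Fin n)) =
        φ.comp (MvPolynomial.coeToMvPowerSeries.ringHom (R := F) (σ := Fin n)) := by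
      refine MvPolynomial.ringHom_ext (fun c => ?_) (fun i => ?_)
      · simp only [RingHom.comp_apply, MvPolynomial.coeToMvPowerSeries.ringHom_apply,
          MvPolynomial.coe_C]
        rw [hψ, hφC]
      · simp only [RingHom.comp_apply, MvPolynomial.coeToMvPowerSeries.ringHom_apply,
          MvPolynomial.coe_X]
        rw [hφX]
    have h2 := RingHom.congr_fun h1 p
    simpa only [RingHom.comp_apply, MvPolynomial.coeToMvPowerSeries.ringHom_apply] using h2
  intro h
  rw [hφe]
  ext m
  have hm : h - (MvPowerSeries.truncTotal (m + 1) h : MvPolynomial (Fin n) F) ∈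
      TR.MO F n (m + 1) := by
    intro α hα
    rw [map_sub, MvPolynomial.coeff_coe, MvPowerSeries.coeff_truncTotal _ hα, sub_self]
  have h1 := evl_dvd ψ h0 (m + 1) _ hm
  have h2 := evl_dvd φ (fun i => by rw [hφX]; exact h0 i) (m + 1) _ hm
  rw [map_sub] at h1 h2
  have h3 := dvd_sub h1 h2
  rw [hpoly] at h3
  have e : ψ h - φ ((MvPowerSeries.truncTotal (m + 1) h : MvPolynomial (Fin n) F) : O F n) -
      (φ h - φ ((MvPowerSeries.truncTotal (m + 1) h : MvPolynomial (Fin n) F) : O F n)) =
      ψ h - φ h := by ring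
  rw [e, PowerSeries.X_pow_dvd_iff] at h3
  have h4 := h3 m (by omega)
  rw [map_sub, sub_eq_zero] at h4
  exact h4

end Pool.Agent.DU5.TE.H03
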